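import Pool.Agent.NH81.NC.Far

/-!
# The pairs `(n, m)` with `min (π ^ n, e ^ m) ≤ x` and `|π ^ n - e ^ m| ≤ x`
-/

set_option autoImplicit false

namespace Pool.Agent.NH81.NC

open Real Filter Set
open Pool.Agent.H491R3.PE Pool.Agent.TH709.NC

variable {a b : ℝ}

/-- the pairs with one of the two powers at most `x` -/
def Nr (a b x : ℝ) : Set (ℕ × ℕ) :=
  {p | |a ^ p.1 - b ^ p.2| ≤ x ∧ (a ^ p.1 ≤ x ∨ b ^ p.2 ≤ x)}

/-- the number of the powers `b ^ m ≤ x` with `a ^ n₀ - b ^ m ≤ x` -/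
theorem edge (ha : 1 < a) (hb : 1 < b) {x : ℝ} (hx : 1 ≤ x) {n₀ : ℕ} {t : ℝ}
    (hb1 : 1 ≤ log b) (ha1 : 1 ≤ log a)
    (ht : (n₀ : ℝ) = log x / log a + t) (ht0 : 0 < t) :
    {m : ℕ | b ^ m ≤ x ∧ a ^ n₀ - b ^ m ≤ x}.Finite ∧
    (({m : ℕ | b ^ m ≤ x ∧ a ^ n₀ - b ^ m ≤ x}.ncard : ℕ) : ℝ) ≤ log x / log b + 1 ∧
    (t ≤ 1 → (({m : ℕ | b ^ m ≤ x ∧ a ^ n₀ - b ^ m ≤ x}.ncard : ℕ) : ℝ) ≤ 1 - log t) := by
  have hA : 0 < log a := log_pos ha
  have hB : 0 < log b := log_pos hb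
  have hx0 : 0 < x := by linarith
  have hlx : 0 ≤ log x := log_nonneg hx
  set S := {m : ℕ | b ^ m ≤ x ∧ a ^ n₀ - b ^ m ≤ x} with hS
  have h1 : S ⊆ ((Finset.Icc 0 ⌊log x / log b⌋₊ : Finset ℕ) : Set ℕ) := by
    rintro m ⟨h1, _⟩
    rw [Finset.mem_coe, Finset.mem_Icc]
    exact ⟨Nat.zero_le _, Nat.le_floor ((pow_le_iff_log hb hx0 m).1 h1)⟩
  have hfin : S.Finite := (Finset.finite_toSet (Finset.Icc 0 ⌊log x / log b⌋₊)).subset h1
  refine ⟨hfin, ?_, fun ht1 => ?_⟩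
  · have h2 := Set.ncard_le_ncard h1 (Finset.finite_toSet _)
    rw [Set.ncard_coe_finset, Nat.card_Icc] at h2
    have h3 : (S.ncard : ℝ) ≤ (⌊log x / log b⌋₊ : ℝ) + 1 := by
      have h4 : S.ncard ≤ ⌊log x / log b⌋₊ + 1 := by omega
      exact_mod_cast h4
    have h4 : (⌊log x / log b⌋₊ : ℝ) ≤ log x / log b := Nat.floor_le (by positivity)
    linarith
  · have hlt : log t ≤ 0 := Real.log_nonpos ht0.le ht1
    have hpow : x * (1 + t) ≤ a ^ n₀ := by
      have h2 : a ^ n₀ = x * exp (t * log a) := by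
        rw [← Real.exp_log (by positivity : 0 < a ^ n₀), Real.log_pow, ht, add_mul,
          div_mul_cancel₀ _ hA.ne', Real.exp_add, Real.exp_log hx0]
      rw [h2]
      apply mul_le_mul_of_nonneg_left _ hx0.le
      have h3 := Real.add_one_le_exp (t * log a)
      nlinarith
    have h2 : S ⊆ ((Finset.Icc ⌈log x / log b + log t⌉₊ ⌊log x / log b + log t + (-log t)⌋₊ :
        Finset ℕ) : Set ℕ) := by
      rintro m ⟨h1, h2⟩
      rw [Finset.coe_Icc, Set.mem_Icc]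
      have h3 := (pow_le_iff_log hb hx0 m).1 h1
      refine ⟨Nat.ceil_le.2 ?_, Nat.le_floor (by linarith)⟩
      have h4 : x * t ≤ b ^ m := by linarith
      have h5 := Real.log_le_log (by positivity) h4
      rw [Real.log_mul hx0.ne' ht0.ne', Real.log_pow] at h5
      have h6 : log x / log b + log t / log b ≤ m := by
        rw [← add_div, div_le_iff₀ hB]
        exact h5
      have h7 : log t ≤ log t / log b := by
        rw [le_div_iff₀ hB]
        nlinarith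
      linarith
    have h3 := Set.ncard_le_ncard h2 (Finset.finite_toSet _)
    rw [Set.ncard_coe_finset] at h3
    have h4 := cnt (log x / log b + log t) (-log t) (by linarith)
    have h5 : (S.ncard : ℝ) ≤ ((Finset.Icc ⌈log x / log b + log t⌉₊
        ⌊log x / log b + log t + (-log t)⌋₊).card : ℝ) := by exact_mod_cast h3
    linarith

/-- an upper bound for the number of the pairs -/
theorem near_upper (ha : 2 < a) (hb : 2 < b) (ha1 : 1 ≤ log a) (hb1 : 1 ≤ log b) {x : ℝ}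
    (hx : 1 ≤ x) {n₀ m₀ : ℕ} {t s : ℝ}
    (ht : (n₀ : ℝ) = log x / log a + t) (ht0 : 0 < t) (ht1 : t ≤ 1)
    (hs : (m₀ : ℝ) = log x / log b + s) (hs0 : 0 < s) (hs1 : s ≤ 1) :
    (Nr a b x).Finite ∧ ((Nr a b x).ncard : ℝ) ≤
      (log x / log a + t) * (log x / log b + s) + min (log x / log b + 1) (1 - log t) +
        min (log x / log a + 1) (1 - log s) := by
  have ha' : 1 < a := by linarith
  have hb' : 1 < b := by linarith
  have hx0 : 0 < x := by linarith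
  obtain ⟨f1, e1, e2⟩ := edge ha' hb' hx hb1 ha1 ht ht0
  obtain ⟨f2, e3, e4⟩ := edge hb' ha' hx ha1 hb1 hs hs0
  set S1 := {m : ℕ | b ^ m ≤ x ∧ a ^ n₀ - b ^ m ≤ x} with hS1
  set S2 := {n : ℕ | a ^ n ≤ x ∧ b ^ m₀ - a ^ n ≤ x} with hS2
  set R : Set (ℕ × ℕ) := ((Finset.range n₀ ×ˢ Finset.range m₀ : Finset (ℕ × ℕ)) : Set (ℕ × ℕ)) with hR
  have hlt : ∀ n : ℕ, a ^ n ≤ x → n < n₀ := by
    intro n hn
    have h1 := (pow_le_iff_log ha' hx0 n).1 hn
    have h2 : (n : ℝ) < n₀ := by linarith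
    exact_mod_cast h2
  have hlt2 : ∀ m : ℕ, b ^ m ≤ x → m < m₀ := by
    intro m hm
    have h1 := (pow_le_iff_log hb' hx0 m).1 hm
    have h2 : (m : ℝ) < m₀ := by linarith
    exact_mod_cast h2
  have hle : ∀ n : ℕ, a ^ n ≤ 2 * x → n ≤ n₀ := by
    intro n hn
    by_contra hcon
    obtain ⟨k, rfl⟩ : ∃ k, n = k + 1 := ⟨n - 1, by omega⟩
    have h1 : a ^ k ≤ x := by
      rw [pow_succ] at hn
      have h2 : 0 < a ^ k := by positivity
      nlinarith
    have := hlt k h1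
    omega
  have hle2 : ∀ m : ℕ, b ^ m ≤ 2 * x → m ≤ m₀ := by
    intro m hm
    by_contra hcon
    obtain ⟨k, rfl⟩ : ∃ k, m = k + 1 := ⟨m - 1, by omega⟩
    have h1 : b ^ k ≤ x := by
      rw [pow_succ] at hm
      have h2 : 0 < b ^ k := by positivity
      nlinarith
    have := hlt2 k h1
    omega
  have hsub : Nr a b x ⊆ R ∪ (fun m => (n₀, m)) '' S1 ∪ (fun n => (n, m₀)) '' S2 := by
    rintro ⟨n, m⟩ ⟨h1, h2⟩
    simp only at h1 h2
    rw [abs_le] at h1
    rcases le_or_gt (a ^ n) x with h3 | h3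
    · have h4 : b ^ m ≤ 2 * x := by linarith [h1.1]
      rcases Nat.lt_or_ge m m₀ with h5 | h5
      · left; left
        rw [hR, Finset.mem_coe, Finset.mem_product, Finset.mem_range, Finset.mem_range]
        exact ⟨hlt n h3, h5⟩
      · right
        have h6 : m = m₀ := le_antisymm (hle2 m h4) h5
        exact ⟨n, ⟨h3, by rw [← h6]; linarith [h1.1]⟩, by rw [h6]⟩
    · have h4 : b ^ m ≤ x := by
        rcases h2 with h2 | h2
        · exact absurd h2 (not_le.2 h3)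
        · exact h2
      have h5 : a ^ n ≤ 2 * x := by linarith [h1.2]
      rcases Nat.lt_or_ge n n₀ with h6 | h6
      · left; left
        rw [hR, Finset.mem_coe, Finset.mem_product, Finset.mem_range, Finset.mem_range]
        exact ⟨h6, hlt2 m h4⟩
      · left; right
        have h7 : n = n₀ := le_antisymm (hle n h5) h6
        exact ⟨m, ⟨h4, by rw [← h7]; linarith [h1.2]⟩, by rw [h7]⟩
  have hRf : R.Finite := Finset.finite_toSet _
  have hfin : (R ∪ (fun m => (n₀, m)) '' S1 ∪ (fun n => (n, m₀)) '' S2).Finite :=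
    (hRf.union (f1.image _)).union (f2.image _)
  refine ⟨hfin.subset hsub, ?_⟩
  have h1 := Set.ncard_le_ncard hsub hfin
  have h2 := Set.ncard_union_le (R ∪ (fun m => (n₀, m)) '' S1) ((fun n => (n, m₀)) '' S2)
  have h3 := Set.ncard_union_le R ((fun m => (n₀, m)) '' S1)
  have h4 := Set.ncard_image_le (f := fun m => (n₀, m)) f1
  have h5 := Set.ncard_image_le (f := fun n => (n, m₀)) f2
  have h6 : R.ncard = n₀ * m₀ := by
    rw [hR, Set.ncard_coe_finset, Finset.card_product, Finset.card_range, Finset.card_range]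
  have h7 : ((Nr a b x).ncard : ℝ) ≤ (n₀ : ℝ) * m₀ + S1.ncard + S2.ncard := by
    have h8 : (Nr a b x).ncard ≤ n₀ * m₀ + S1.ncard + S2.ncard := by omega
    exact_mod_cast h8
  rw [ht, hs] at h7
  have h8 : (S1.ncard : ℝ) ≤ min (log x / log b + 1) (1 - log t) := le_min e1 (e2 ht1)
  have h9 : (S2.ncard : ℝ) ≤ min (log x / log a + 1) (1 - log s) := le_min e3 (e4 hs1)
  linarith

/-- the lower bound -/
theorem near_lower (ha : 1 < a) (hb : 1 < b) {x : ℝ} (hx : 1 ≤ x) (n m : ℕ)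
    (hn : a ^ n ≤ x) (hm : b ^ m ≤ x) (hfin : (Nr a b x).Finite) :
    ((n : ℝ) + 1) * (m + 1) ≤ (Nr a b x).ncard := by
  have hsub : ((Finset.range (n + 1) ×ˢ Finset.range (m + 1) : Finset (ℕ × ℕ)) : Set (ℕ × ℕ)) ⊆
      Nr a b x := by
    rintro ⟨k, l⟩ h
    rw [Finset.mem_coe, Finset.mem_product, Finset.mem_range, Finset.mem_range] at h
    have h1 : a ^ k ≤ x := (pow_le_pow_right₀ ha.le (by omega)).trans hn
    have h2 : b ^ l ≤ x := (pow_le_pow_right₀ hb.le (by omega)).trans hm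
    have h3 : 0 < a ^ k := by positivity
    have h4 : 0 < b ^ l := by positivity
    refine ⟨?_, Or.inl h1⟩
    simp only
    rw [abs_le]
    constructor <;> linarith
  have h1 := Set.ncard_le_ncard hsub hfin
  rw [Set.ncard_coe_finset, Finset.card_product, Finset.card_range, Finset.card_range] at h1
  exact_mod_cast h1

/-- a bound for the term of the edge -/
theorem edge_bound {D t δ : ℝ} (hD : 0 ≤ D) (hδ : 0 < δ) (hδ1 : δ ≤ 1) (ht0 : 0 < t)
    (ht1 : t ≤ 1) : t * D + min (D + 1) (1 - log t) ≤ D * (1 + δ) + 1 - log δ := by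
  have hlδ : log δ ≤ 0 := Real.log_nonpos hδ.le hδ1
  rcases le_or_gt δ t with h | h
  · have h1 := min_le_right (D + 1) (1 - log t)
    have h2 := Real.log_le_log hδ h
    have h3 : t * D ≤ 1 * D := mul_le_mul_of_nonneg_right ht1 hD
    have h4 : 0 ≤ D * δ := by positivity
    nlinarith
  · have h1 := min_le_left (D + 1) (1 - log t)
    have h3 : t * D ≤ δ * D := mul_le_mul_of_nonneg_right h.le hD
    nlinarith

theorem floor_dec {y : ℝ} (hy : 0 ≤ y) : ∃ (n : ℕ) (t : ℝ), (n : ℝ) = y + t ∧ 0 < t ∧ t ≤ 1 := by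
  refine ⟨⌊y⌋₊ + 1, (⌊y⌋₊ : ℝ) + 1 - y, by push_cast; ring, ?_, ?_⟩
  · linarith [Nat.lt_floor_add_one y]
  · linarith [Nat.floor_le hy]

/-- the upper bound for all `x` -/
theorem near_upper_all (ha : 2 < a) (hb : 2 < b) (ha1 : 1 ≤ log a) (hb1 : 1 ≤ log b) {ε : ℝ}
    (hε : 0 < ε) : ∃ x₀ : ℝ, 1 ≤ x₀ ∧ ∀ x : ℝ, x₀ ≤ x →
    (Nr a b x).Finite ∧ ((Nr a b x).ncard : ℝ) ≤
      log x ^ 2 / (log a * log b) + (1 / log a + 1 / log b + ε) * log x := by
  have hA : 0 < log a := by linarith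
  have hB : 0 < log b := by linarith
  obtain ⟨δ, hδ⟩ : ∃ δ, δ = min 1 (ε / 4) := ⟨_, rfl⟩
  have hδ0 : 0 < δ := by rw [hδ]; exact lt_min one_pos (by positivity)
  have hδ1 : δ ≤ 1 := by rw [hδ]; exact min_le_left _ _
  have hδ2 : δ ≤ ε / 4 := by rw [hδ]; exact min_le_right _ _
  obtain ⟨x₂, hx₂⟩ : ∃ x₂ : ℝ, ∀ x, x₂ ≤ x → 3 - 2 * log δ ≤ ε / 2 * log x := by
    have h1 := (Real.tendsto_log_atTop.const_mul_atTop (by positivity : 0 < ε / 2)).eventually
      (eventually_ge_atTop (3 - 2 * log δ))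
    exact eventually_atTop.1 h1
  refine ⟨max x₂ 1, le_max_right _ _, fun x hx => ?_⟩
  have hx1 : 1 ≤ x := (le_max_right _ _).trans hx
  have hlx : 0 ≤ log x := log_nonneg hx1
  have h0 := hx₂ x ((le_max_left _ _).trans hx)
  obtain ⟨n₀, t, ht, ht0, ht1⟩ := floor_dec (y := log x / log a) (by positivity)
  obtain ⟨m₀, s, hs, hs0, hs1⟩ := floor_dec (y := log x / log b) (by positivity)
  obtain ⟨f, h1⟩ := near_upper ha hb ha1 hb1 hx1 ht ht0 ht1 hs hs0 hs1
  refine ⟨f, h1.trans ?_⟩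
  have h2 := edge_bound (D := log x / log b) (by positivity) hδ0 hδ1 ht0 ht1
  have h3 := edge_bound (D := log x / log a) (by positivity) hδ0 hδ1 hs0 hs1
  have h4 : log x / log a ≤ log x := div_le_self hlx ha1
  have h5 : log x / log b ≤ log x := div_le_self hlx hb1
  have h6 : t * s ≤ 1 := by nlinarith
  have e1 : (log x / log a + t) * (log x / log b + s) =
      log x ^ 2 / (log a * log b) + t * (log x / log b) + s * (log x / log a) + t * s := by
    field_simp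
    ring
  have e2 : (1 / log a + 1 / log b + ε) * log x = log x / log a + log x / log b + ε * log x := by
    ring
  rw [e1, e2]
  have h7 : (log x / log b) * δ ≤ log x * (ε / 4) := mul_le_mul h5 hδ2 hδ0.le hlx
  have h8 : (log x / log a) * δ ≤ log x * (ε / 4) := mul_le_mul h4 hδ2 hδ0.le hlx
  nlinarith

/-- arbitrarily large pairs with almost equal powers -/
theorem dirichlet (θ : ℝ) (hθ : 0 < θ) {η : ℝ} (hη : 0 < η) (hη1 : η < 1) (M : ℕ)
    (hM : 1 ≤ M * θ) : ∃ n m : ℕ, M ≤ n ∧ 1 ≤ n ∧ |(n : ℝ) * θ - m| ≤ η := by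
  obtain ⟨N, hN⟩ := exists_nat_ge ((M : ℝ) / η)
  have hM1 : 1 ≤ M := by
    rcases Nat.eq_zero_or_pos M with h | h
    · rw [h] at hM
      norm_num at hM
    · exact h
  obtain ⟨k, hk0, hkN, hk⟩ := Real.exists_nat_abs_mul_sub_round_le θ (n := N + 1) (Nat.succ_pos N)
  have h1 : |((M * k : ℕ) : ℝ) * θ - ((M * round ((k : ℝ) * θ) : ℤ) : ℝ)| ≤ η := by
    have e : ((M * k : ℕ) : ℝ) * θ - ((M * round ((k : ℝ) * θ) : ℤ) : ℝ) =
        M * ((k : ℝ) * θ - round ((k : ℝ) * θ)) := by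
      push_cast
      ring
    rw [e, abs_mul, abs_of_nonneg (Nat.cast_nonneg M)]
    have h2 : (M : ℝ) * |(k : ℝ) * θ - round ((k : ℝ) * θ)| ≤ M * (1 / ((N + 1 : ℕ) + 1)) :=
      mul_le_mul_of_nonneg_left hk (Nat.cast_nonneg M)
    refine h2.trans ?_
    rw [mul_one_div, div_le_iff₀ (by positivity)]
    rw [div_le_iff₀ hη] at hN
    push_cast
    nlinarith
  have h3 : 0 ≤ (M * round ((k : ℝ) * θ) : ℤ) := by
    by_contra hcon
    push Not at hcon
    have h4 : ((M * round ((k : ℝ) * θ) : ℤ) : ℝ) ≤ -1 := by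
      have : (M * round ((k : ℝ) * θ) : ℤ) ≤ -1 := by omega
      exact_mod_cast this
    have h5 := (abs_le.1 h1).2
    have h6 : 0 ≤ ((M * k : ℕ) : ℝ) * θ := by positivity
    linarith
  obtain ⟨m, hm⟩ := Int.eq_ofNat_of_zero_le h3
  refine ⟨M * k, m, Nat.le_mul_of_pos_right _ hk0, Nat.mul_pos hM1 hk0, ?_⟩
  rw [hm] at h1
  simpa using h1

end Pool.Agent.NH81.NC
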