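import Pool.Agent.NH22.NC.Cut

/-!
# The pairs `(n, m)` with `min (a ^ n, b ^ m) > x` and `1 / x < |a ^ n - b ^ m| ≤ x` are few
-/

set_option autoImplicit false

namespace Pool.Agent.NH81.NC

open Real Filter Set
open Pool.Agent.H491R3.PE Pool.Agent.TH709.NC Pool.Agent.NH22.NC

variable {a b : ℝ}

/-- the tail of the sum of the reciprocals -/
theorem sum_tail (ha : 1 < a) (hb : 1 < b) {ε : ℝ} (hε : 0 < ε) : ∃ Q : ℕ, ∀ F : Finset (ℕ × ℕ),
    (∀ l ∈ F, l ∈ LL a b ∧ Q < l.1) → ∑ l ∈ F, (1 : ℝ) / l.1 ≤ ε := by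
  classical
  obtain ⟨n₀, lam, hn₀, hlam, hlam1, hln, g1, g2, g3⟩ := gaps ha hb
  obtain ⟨n₁, hn₁⟩ := exists_nat_ge (2 / ε)
  refine ⟨max n₀ n₁, fun F hF => ?_⟩
  have hn : ∀ l ∈ F, n₀ ≤ l.1 := fun l hl => (le_max_left _ _).trans (hF l hl).2.le
  have h1 : ∑ l ∈ F, (1 : ℝ) / l.1 = ∑ p ∈ F.image Prod.fst, (1 : ℝ) / p := by
    rw [Finset.sum_image]
    intro p hp q hq hpq
    exact g1 p (hF p hp).1 q (hF q hq).1 (hn p hp) hpq
  rw [h1]
  have h2 := sum_inv _ (F.image Prod.fst) (n₁ + 1) rfl (by omega) (by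
    intro p hp
    obtain ⟨l, hl, rfl⟩ := Finset.mem_image.1 hp
    have := (hF l hl).2
    have h3 : n₁ ≤ max n₀ n₁ := le_max_right _ _
    omega) (by
    intro p hp q hq hpq
    obtain ⟨l, hl, rfl⟩ := Finset.mem_image.1 hp
    obtain ⟨k, hk, rfl⟩ := Finset.mem_image.1 hq
    exact g2 l (hF l hl).1 k (hF k hk).1 (hn l hl) hpq)
  refine h2.trans ?_
  rw [div_le_iff₀ (by positivity)]
  rw [div_le_iff₀ hε] at hn₁
  push_cast
  nlinarith

/-- no large points on the lines with small primitive vectors, except those with distance zero -/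
theorem no_small (ha : 1 < a) (hb : 1 < b) (Q : ℕ) : ∃ x₀ : ℝ, ∀ x : ℝ, x₀ ≤ x → ∀ l ∈ LL a b,
    l.1 ≤ Q → ∀ g : ℕ, 0 < |a ^ (g * l.1) - b ^ (g * l.2)| →
      |a ^ (g * l.1) - b ^ (g * l.2)| ≤ x → a ^ (g * l.1) ≤ x ^ 2 := by
  classical
  have hF := LL_fin ha hb Q
  obtain ⟨M, hM⟩ := (hF.toFinset.image fun l => a ^ l.1 / |a ^ l.1 - b ^ l.2|).exists_le
  refine ⟨max M 1, fun x hx l hl hlQ g h1 h2 => ?_⟩
  have hx1 : 1 ≤ x := (le_max_right _ _).trans hx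
  have hM1 : a ^ l.1 / |a ^ l.1 - b ^ l.2| ≤ M := hM _ (by
    rw [Finset.mem_image]
    exact ⟨l, by rw [Set.Finite.mem_toFinset]; exact ⟨hl, hlQ⟩, rfl⟩)
  have hg : g ≠ 0 := by
    rintro rfl
    simp at h1
  obtain ⟨k, rfl⟩ : ∃ k, g = 1 + k := ⟨g - 1, by omega⟩
  have hd : 0 < |a ^ l.1 - b ^ l.2| := by
    rw [abs_pos]
    intro h0
    rw [sub_eq_zero] at h0
    rw [mul_comm, pow_mul, h0, ← pow_mul, mul_comm, sub_self, abs_zero] at h1
    exact lt_irrefl _ h1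
  have h7 := growth (u := a ^ l.1) (v := b ^ l.2) (one_le_pow₀ ha.le) (one_le_pow₀ hb.le) 1 k
  simp only [← pow_mul, mul_one] at h7
  rw [mul_comm l.1 (1 + k), mul_comm l.2 (1 + k)] at h7
  have h8 : a ^ (l.1 * k) * |a ^ l.1 - b ^ l.2| ≤ x := h7.trans h2
  have h9 : a ^ ((1 + k) * l.1) = a ^ l.1 * a ^ (l.1 * k) := by
    rw [← pow_add]
    congr 1
    ring
  rw [h9]
  rw [div_le_iff₀ hd] at hM1
  have h10 : a ^ l.1 ≤ x * |a ^ l.1 - b ^ l.2| :=
    hM1.trans (mul_le_mul_of_nonneg_right ((le_max_left _ _).trans hx) hd.le)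
  have h11 : 0 < a ^ (l.1 * k) := by positivity
  calc a ^ l.1 * a ^ (l.1 * k) ≤ (x * |a ^ l.1 - b ^ l.2|) * a ^ (l.1 * k) :=
        mul_le_mul_of_nonneg_right h10 h11.le
    _ = x * (a ^ (l.1 * k) * |a ^ l.1 - b ^ l.2|) := by ring
    _ ≤ x * x := mul_le_mul_of_nonneg_left h8 (by linarith)
    _ = x ^ 2 := by ring

/-- the pairs with `a ^ n > x ^ 2` -/
theorem lines_small (ha : 1 < a) (hb : 1 < b) {ε : ℝ} (hε : 0 < ε) : ∃ x₀ C : ℝ, ∀ x : ℝ,
    x₀ ≤ x → ∀ T h : ℕ, T ≤ tow h →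
    {p : ℕ × ℕ | (p.1 ≤ T ∧ 1 / x < |a ^ p.1 - b ^ p.2| ∧ |a ^ p.1 - b ^ p.2| ≤ x) ∧
      x ^ 2 < a ^ p.1}.Finite ∧
    (({p : ℕ × ℕ | (p.1 ≤ T ∧ 1 / x < |a ^ p.1 - b ^ p.2| ∧ |a ^ p.1 - b ^ p.2| ≤ x) ∧
      x ^ 2 < a ^ p.1}.ncard : ℕ) : ℝ) ≤ ε * log x + h + C := by
  classical
  have hA : 0 < log a := log_pos ha
  obtain ⟨C₁, hC₁⟩ := thin ha hb
  obtain ⟨Q, hQ⟩ := sum_tail ha hb (ε := ε * log a / 2) (by positivity)
  obtain ⟨x₁, hx₁⟩ := no_small ha hb Q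
  refine ⟨max x₁ 2, C₁, fun x hx T h hT => ?_⟩
  have hx2 : 2 ≤ x := (le_max_right _ _).trans hx
  have hx0 : 0 < x := by linarith
  have hlx : 0 < log x := log_pos (by linarith)
  have hy : 0 < 1 / x := by positivity
  have hyx : 1 / x ≤ x := by
    rw [div_le_iff₀ hx0]
    nlinarith
  have hF := LL_fin ha hb (tow h)
  set F : Finset (ℕ × ℕ) := hF.toFinset.filter (fun l => Q < l.1) with hFd
  have hF1 : ∀ l ∈ F, l ∈ LL a b ∧ Q < l.1 := fun l hl => by
    rw [hFd, Finset.mem_filter, Set.Finite.mem_toFinset] at hl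
    exact ⟨hl.1.1, hl.2⟩
  choose! G hG1 hG2 using fun (l : ℕ × ℕ) (hl : 1 ≤ l.1) => few_multiples ha hb hy hyx l hl
  set H : Finset (ℕ × ℕ) := F.biUnion fun l => (G l).image fun g => (g * l.1, g * l.2) with hH
  have hsub : {p : ℕ × ℕ | (p.1 ≤ T ∧ 1 / x < |a ^ p.1 - b ^ p.2| ∧ |a ^ p.1 - b ^ p.2| ≤ x) ∧
      x ^ 2 < a ^ p.1} ⊆ (H : Set (ℕ × ℕ)) := by
    rintro p ⟨⟨h1, h2, h3⟩, h4⟩
    obtain ⟨l, hl, g, rfl⟩ := on_of_large ha hb hx2 h3 h4
    have hg : g ≠ 0 := by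
      rintro rfl
      simp only [zero_mul, pow_zero] at h4
      nlinarith
    rw [Finset.mem_coe, hH, Finset.mem_biUnion]
    refine ⟨l, ?_, ?_⟩
    · rw [hFd, Finset.mem_filter, Set.Finite.mem_toFinset]
      refine ⟨⟨hl, (Nat.le_mul_of_pos_left _ (Nat.pos_of_ne_zero hg)).trans (h1.trans hT)⟩, ?_⟩
      by_contra hcon
      exact absurd (hx₁ x ((le_max_left _ _).trans hx) l hl (not_lt.1 hcon) g (hy.trans h2) h3)
        (not_le.2 h4)
    · rw [Finset.mem_image]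
      exact ⟨g, hG2 l hl.1 g h2 h3, rfl⟩
  refine ⟨(Finset.finite_toSet H).subset hsub, ?_⟩
  have h1 : {p : ℕ × ℕ | (p.1 ≤ T ∧ 1 / x < |a ^ p.1 - b ^ p.2| ∧ |a ^ p.1 - b ^ p.2| ≤ x) ∧
      x ^ 2 < a ^ p.1}.ncard ≤ H.card := by
    refine (Set.ncard_le_ncard hsub (Finset.finite_toSet _)).trans ?_
    rw [Set.ncard_coe_finset]
  have h2 : (H.card : ℝ) ≤ ∑ l ∈ F, (1 + log (x / (1 / x)) / log a * (1 / l.1)) := by
    have h3 : (H.card : ℝ) ≤ ∑ l ∈ F, ((G l).card : ℝ) := by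
      have h31 : H.card ≤ ∑ l ∈ F, ((G l).image fun g => (g * l.1, g * l.2)).card :=
        Finset.card_biUnion_le
      have h32 : ∑ l ∈ F, ((G l).image fun g => (g * l.1, g * l.2)).card ≤
          ∑ l ∈ F, (G l).card := Finset.sum_le_sum fun l _ => Finset.card_image_le
      exact_mod_cast h31.trans h32
    refine h3.trans (Finset.sum_le_sum fun l hl => ?_)
    exact hG1 l (hF1 l hl).1.1
  rw [Finset.sum_add_distrib, Finset.sum_const, nsmul_eq_mul, mul_one, ← Finset.mul_sum] at h2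
  have h4 : (F.card : ℝ) ≤ h + C₁ := by
    have h41 := hC₁ h
    rw [Set.ncard_eq_toFinset_card _ hF] at h41
    have h42 : F.card ≤ hF.toFinset.card := Finset.card_filter_le _ _
    exact_mod_cast h42.trans h41
  have h5 := hQ F hF1
  have h6 : log (x / (1 / x)) = 2 * log x := by
    rw [div_div_eq_mul_div, div_one, ← pow_two, Real.log_pow]
    norm_num
  rw [h6] at h2
  have h7 : 2 * log x / log a * ∑ l ∈ F, (1 : ℝ) / l.1 ≤ 2 * log x / log a * (ε * log a / 2) :=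
    mul_le_mul_of_nonneg_left h5 (by positivity)
  have h8 : 2 * log x / log a * (ε * log a / 2) = ε * log x := by field_simp
  have h9 : (({p : ℕ × ℕ | (p.1 ≤ T ∧ 1 / x < |a ^ p.1 - b ^ p.2| ∧ |a ^ p.1 - b ^ p.2| ≤ x) ∧
      x ^ 2 < a ^ p.1}.ncard : ℕ) : ℝ) ≤ H.card := by exact_mod_cast h1
  linarith

/-- the multiples of `θ` that are close to integers are integers or far apart -/
theorem sep (θ : ℝ) (G : ℕ) : ∃ η : ℝ, 0 < η ∧ ∀ g : ℕ, g < G → ∀ r : ℤ,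
    |(g : ℝ) * θ - r| < η → (g : ℝ) * θ = r := by
  induction G with
  | zero => exact ⟨1, one_pos, fun g hg => absurd hg (Nat.not_lt_zero g)⟩
  | succ G ih =>
    obtain ⟨η, hη, h⟩ := ih
    obtain ⟨d, hd⟩ : ∃ d, d = |(G : ℝ) * θ - round ((G : ℝ) * θ)| := ⟨_, rfl⟩
    rcases eq_or_ne d 0 with h0 | h0
    · refine ⟨min η 1, lt_min hη one_pos, fun g hg r hr => ?_⟩
      rcases Nat.lt_or_ge g G with h1 | h1
      · exact h g h1 r (hr.trans_le (min_le_left _ _))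
      · have h2 : g = G := by omega
        subst h2
        rw [h0, eq_comm, abs_eq_zero, sub_eq_zero] at hd
        have h3 : |(g : ℝ) * θ - r| < 1 := hr.trans_le (min_le_right _ _)
        rw [hd] at h3 ⊢
        have h4 : |round ((g : ℝ) * θ) - r| < 1 := by exact_mod_cast h3
        rw [Int.abs_lt_one_iff, sub_eq_zero] at h4
        rw [h4]
    · have hd0 : 0 < d := lt_of_le_of_ne (by rw [hd]; exact abs_nonneg _) (Ne.symm h0)
      refine ⟨min η d, lt_min hη hd0, fun g hg r hr => ?_⟩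
      rcases Nat.lt_or_ge g G with h1 | h1
      · exact h g h1 r (hr.trans_le (min_le_left _ _))
      · have h2 : g = G := by omega
        subst h2
        have h3 : d ≤ |(g : ℝ) * θ - r| := by
          rw [hd]
          exact round_le _ r
        exact absurd (hr.trans_le (min_le_right _ _)) (not_lt.2 h3)

/-- a small distance gives a small linear form -/
theorem close_log (ha : 1 < a) (hb : 1 < b) {K x : ℝ} {n m : ℕ} (hK : 2 ≤ K) (hx : 0 < x)
    (h1 : |a ^ n - b ^ m| ≤ x) (h2 : K * x < a ^ n) :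
    |(n : ℝ) * (log a / log b) - m| ≤ 2 / K / log b := by
  have hB : 0 < log b := log_pos hb
  have ha0 : 0 < a ^ n := by positivity
  have hb0 : 0 < b ^ m := by positivity
  have hK0 : 0 < K := by linarith
  have h3 : |b ^ m / a ^ n - 1| ≤ 1 / K := by
    have e : b ^ m / a ^ n - 1 = (b ^ m - a ^ n) / a ^ n := by
      field_simp
    rw [e, abs_div, abs_sub_comm, abs_of_pos ha0, div_le_div_iff₀ ha0 hK0, one_mul]
    nlinarith [mul_le_mul_of_nonneg_right h1 hK0.le]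
  have h4 : |b ^ m / a ^ n - 1| ≤ 1 / 2 :=
    h3.trans (one_div_le_one_div_of_le (by norm_num) hK)
  have h5 := abs_log_le h4
  rw [Real.log_div hb0.ne' ha0.ne', Real.log_pow, Real.log_pow] at h5
  have e : (n : ℝ) * (log a / log b) - m = -((m * log b - n * log a) / log b) := by
    field_simp
    ring
  rw [e, abs_neg, abs_div, abs_of_pos hB]
  apply div_le_div_of_nonneg_right _ hB.le
  refine h5.trans ?_
  calc 2 * |b ^ m / a ^ n - 1| ≤ 2 * (1 / K) := by linarith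
    _ = 2 / K := by ring

/-- the pairs with `K x < a ^ n ≤ x ^ 2` -/
theorem middle_small (ha : 1 < a) (hb : 1 < b) {ε : ℝ} (hε : 0 < ε) : ∃ K : ℝ, 2 ≤ K ∧
    ∀ x : ℝ, 2 ≤ x →
    {p : ℕ × ℕ | (1 / x < |a ^ p.1 - b ^ p.2| ∧ |a ^ p.1 - b ^ p.2| ≤ x) ∧
      K * x < a ^ p.1 ∧ a ^ p.1 ≤ x ^ 2}.Finite ∧
    (({p : ℕ × ℕ | (1 / x < |a ^ p.1 - b ^ p.2| ∧ |a ^ p.1 - b ^ p.2| ≤ x) ∧
      K * x < a ^ p.1 ∧ a ^ p.1 ≤ x ^ 2}.ncard : ℕ) : ℝ) ≤ ε * log x + 1 := by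
  classical
  have hA : 0 < log a := log_pos ha
  have hB : 0 < log b := log_pos hb
  obtain ⟨θ, hθ⟩ : ∃ θ, θ = log a / log b := ⟨_, rfl⟩
  by_cases hirr : Irrational θ
  · obtain ⟨G, hG⟩ := exists_nat_ge (2 / (ε * log a))
    obtain ⟨η, hη, hsep⟩ := sep θ (G + 1)
    obtain ⟨K, hK⟩ : ∃ K, K = max 2 (8 / (η * log b)) + max 2 (8 / log b) := ⟨_, rfl⟩
    have hK1 : 8 / (η * log b) ≤ K := by
      rw [hK]
      linarith [le_max_right 2 (8 / (η * log b)), le_max_left 2 (8 / log b)]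
    have hK2 : 8 / log b ≤ K := by
      rw [hK]
      linarith [le_max_right 2 (8 / log b), le_max_left 2 (8 / (η * log b))]
    have hK3 : 2 ≤ K := by
      rw [hK]
      linarith [le_max_left 2 (8 / log b), le_max_left 2 (8 / (η * log b))]
    have hK0 : 0 < K := by linarith
    have hc1 : 2 / K / log b ≤ η / 4 := by
      rw [div_div, div_le_div_iff₀ (by positivity) (by norm_num)]
      rw [div_le_iff₀ (by positivity)] at hK1
      linarith
    have hc2 : 2 / K / log b ≤ 1 / 4 := by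
      rw [div_div, div_le_div_iff₀ (by positivity) (by norm_num)]
      rw [div_le_iff₀ (by positivity)] at hK2
      linarith
    refine ⟨K, hK3, fun x hx => ?_⟩
    have hx0 : 0 < x := by linarith
    have hlx : 0 < log x := log_pos (by linarith)
    set S := {p : ℕ × ℕ | (1 / x < |a ^ p.1 - b ^ p.2| ∧ |a ^ p.1 - b ^ p.2| ≤ x) ∧
      K * x < a ^ p.1 ∧ a ^ p.1 ≤ x ^ 2} with hS
    have hcl : ∀ p ∈ S, |(p.1 : ℝ) * θ - p.2| ≤ 2 / K / log b := by
      rintro p ⟨⟨_, h1⟩, h2, _⟩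
      rw [hθ]
      exact close_log ha hb hK3 hx0 h1 h2
    have hinj : Set.InjOn (fun p : ℕ × ℕ => p.1 / (G + 1)) S := by
      have key : ∀ p ∈ S, ∀ q ∈ S, p.1 / (G + 1) = q.1 / (G + 1) → q.1 ≤ p.1 → p = q := by
        intro p hp q hq hpq hle
        have h1 : p.1 - q.1 < G + 1 := by
          have e1 := Nat.div_add_mod p.1 (G + 1)
          have e2 := Nat.div_add_mod q.1 (G + 1)
          have e3 : p.1 % (G + 1) < G + 1 := Nat.mod_lt p.1 (Nat.succ_pos G)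
          rw [hpq] at e1
          omega
        have h2 := hcl p hp
        have h3 := hcl q hq
        have h4 : |((p.1 - q.1 : ℕ) : ℝ) * θ - (((p.2 : ℤ) - q.2 : ℤ) : ℝ)| ≤
            2 * (2 / K / log b) := by
          rw [Nat.cast_sub hle]
          push_cast
          have e : ((p.1 : ℝ) - q.1) * θ - ((p.2 : ℝ) - q.2) =
              ((p.1 : ℝ) * θ - p.2) - ((q.1 : ℝ) * θ - q.2) := by ring
          rw [e]
          refine (abs_sub _ _).trans ?_
          linarith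
        have h5 := hsep (p.1 - q.1) h1 ((p.2 : ℤ) - q.2) (lt_of_le_of_lt h4 (by linarith))
        have h6 : p.1 - q.1 = 0 := by
          by_contra hne
          have h7 : Irrational (((p.1 - q.1 : ℕ) : ℝ) * θ) :=
            hirr.natCast_mul hne
          rw [h5] at h7
          exact (Int.not_irrational _) h7
        have h7 : p.1 = q.1 := by omega
        rw [h6, Nat.cast_zero, zero_mul] at h5
        have h8 : (p.2 : ℤ) - q.2 = 0 := by exact_mod_cast h5.symm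
        exact Prod.ext h7 (by omega)
      intro p hp q hq hpq
      rcases le_total q.1 p.1 with h | h
      · exact key p hp q hq hpq h
      · exact (key q hq p hp hpq.symm h).symm
    have hmaps : ∀ p ∈ S, p.1 / (G + 1) ∈ (Finset.range (⌊2 * log x / log a / (G + 1)⌋₊ + 1) : Set ℕ) := by
      rintro p ⟨_, _, h2⟩
      rw [Finset.mem_coe, Finset.mem_range, Nat.lt_succ_iff, Nat.le_floor_iff (by positivity)]
      have h3 := (pow_le_iff_log ha (by positivity) p.1).1 h2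
      rw [Real.log_pow] at h3
      push_cast at h3
      refine (Nat.cast_div_le).trans ?_
      push_cast
      gcongr
    have hfin : S.Finite := Set.Finite.of_injOn hmaps hinj (Finset.finite_toSet _)
    refine ⟨hfin, ?_⟩
    have h1 := Set.ncard_le_ncard_of_injOn (fun p : ℕ × ℕ => p.1 / (G + 1)) hmaps hinj
      (Finset.finite_toSet _)
    rw [Set.ncard_coe_finset, Finset.card_range] at h1
    have h2 : (S.ncard : ℝ) ≤ (⌊2 * log x / log a / (G + 1)⌋₊ : ℝ) + 1 := by exact_mod_cast h1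
    have h3 : (⌊2 * log x / log a / (G + 1)⌋₊ : ℝ) ≤ 2 * log x / log a / (G + 1) :=
      Nat.floor_le (by positivity)
    have h4 : 2 * log x / log a / (G + 1) ≤ ε * log x := by
      rw [div_le_iff₀ (by positivity), div_le_iff₀ hA]
      rw [div_le_iff₀ (by positivity)] at hG
      have h5 : 2 ≤ ((G : ℝ) + 1) * (ε * log a) := by nlinarith [mul_pos hε hA]
      calc 2 * log x ≤ (((G : ℝ) + 1) * (ε * log a)) * log x :=
            mul_le_mul_of_nonneg_right h5 hlx.le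
        _ = ε * log x * (G + 1) * log a := by ring
    linarith
  · -- the rational case
    obtain ⟨r, hr⟩ : ∃ r : ℚ, (r : ℝ) = θ := by
      unfold Irrational at hirr
      push Not at hirr
      exact hirr
    have hden : (0 : ℝ) < r.den := by exact_mod_cast r.den_pos
    obtain ⟨K, hK⟩ : ∃ K, K = 2 + 4 * r.den / log b := ⟨_, rfl⟩
    have hK3 : 2 ≤ K := by
      rw [hK]
      have : 0 ≤ 4 * (r.den : ℝ) / log b := by positivity
      linarith
    refine ⟨K, hK3, fun x hx => ?_⟩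
    have hx0 : 0 < x := by linarith
    have hlx : 0 < log x := log_pos (by linarith)
    have hempty : {p : ℕ × ℕ | (1 / x < |a ^ p.1 - b ^ p.2| ∧ |a ^ p.1 - b ^ p.2| ≤ x) ∧
      K * x < a ^ p.1 ∧ a ^ p.1 ≤ x ^ 2} = ∅ := by
      rw [Set.eq_empty_iff_forall_notMem]
      rintro p ⟨⟨h0, h1⟩, h2, _⟩
      have h3 := close_log ha hb hK3 hx0 h1 h2
      rw [← hθ, ← hr] at h3
      have h4 : 2 / K / log b < 1 / r.den := by
        rw [div_div, div_lt_div_iff₀ (by positivity) hden, one_mul, hK]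
        have e : (2 + 4 * (r.den : ℝ) / log b) * log b = 2 * log b + 4 * r.den := by
          field_simp
        rw [e]
        linarith
      have h5 : |(p.1 : ℝ) * r.num - p.2 * r.den| < 1 := by
        have e : (p.1 : ℝ) * r.num - p.2 * r.den = ((p.1 : ℝ) * (r : ℝ) - p.2) * r.den := by
          have hr2 : (r : ℝ) = r.num / r.den := by exact_mod_cast (Rat.num_div_den r).symm
          rw [hr2]
          field_simp
        rw [e, abs_mul, abs_of_pos hden]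
        calc |(p.1 : ℝ) * (r : ℝ) - p.2| * r.den < 1 / r.den * r.den :=
              mul_lt_mul_of_pos_right (lt_of_le_of_lt h3 h4) hden
          _ = 1 := by field_simp
      have h6 : |(p.1 : ℤ) * r.num - p.2 * r.den| < 1 := by exact_mod_cast h5
      rw [Int.abs_lt_one_iff, sub_eq_zero] at h6
      have h7 : (p.1 : ℝ) * θ = p.2 := by
        rw [← hr]
        have hr2 : (r : ℝ) = r.num / r.den := by exact_mod_cast (Rat.num_div_den r).symm
        have h8 : (p.1 : ℝ) * r.num = p.2 * r.den := by exact_mod_cast h6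
        rw [hr2, ← mul_div_assoc, h8]
        field_simp
      have h8 : a ^ p.1 = b ^ p.2 := by
        have h9 : (p.1 : ℝ) * log a = p.2 * log b := by
          rw [← h7, hθ]
          field_simp
        rw [← Real.log_pow, ← Real.log_pow] at h9
        exact Real.log_injOn_pos (by rw [Set.mem_Ioi]; positivity) (by rw [Set.mem_Ioi]; positivity) h9
      rw [h8, sub_self, abs_zero] at h0
      have : 0 < 1 / x := by positivity
      linarith
    rw [hempty]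
    refine ⟨Set.finite_empty, ?_⟩
    rw [Set.ncard_empty]
    push_cast
    positivity

/-- the pairs with `x < a ^ n ≤ K x` -/
theorem short_small (ha : 1 < a) (hb : 1 < b) {K : ℝ} (hK : 2 ≤ K) : ∃ C : ℝ, ∀ x : ℝ, 2 ≤ x →
    {p : ℕ × ℕ | |a ^ p.1 - b ^ p.2| ≤ x ∧ x < b ^ p.2 ∧ x < a ^ p.1 ∧ a ^ p.1 ≤ K * x}.Finite ∧
    (({p : ℕ × ℕ | |a ^ p.1 - b ^ p.2| ≤ x ∧ x < b ^ p.2 ∧ x < a ^ p.1 ∧
      a ^ p.1 ≤ K * x}.ncard : ℕ) : ℝ) ≤ C := by
  have hA : 0 < log a := log_pos ha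
  have hB : 0 < log b := log_pos hb
  have hK0 : 0 < K := by linarith
  refine ⟨(log K / log a + 1) * (log (K + 1) / log b + 1), fun x hx => ?_⟩
  have hx0 : 0 < x := by linarith
  have hlK : 0 ≤ log K := log_nonneg (by linarith)
  have hlK1 : 0 ≤ log (K + 1) := log_nonneg (by linarith)
  refine set_count (u := log x / log a) (f := fun _ => log x / log b) (by positivity)
    (by positivity) ?_
  rintro p ⟨h1, h2, h3, h4⟩
  rw [abs_le] at h1
  have h5 : b ^ p.2 ≤ (K + 1) * x := by nlinarith [h1.1]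
  have h6 := (pow_le_iff_log ha (by positivity) p.1).1 h4
  have h7 := (pow_le_iff_log hb (by positivity) p.2).1 h5
  rw [Real.log_mul hK0.ne' hx0.ne', add_div] at h6
  rw [Real.log_mul (by positivity) hx0.ne', add_div] at h7
  refine ⟨((lt_pow_iff_log ha hx0 p.1).1 h3).le, by linarith, ((lt_pow_iff_log hb hx0 p.2).1 h2).le,
    by linarith⟩

/-- **The far pairs.** -/
theorem far (ha : 1 < a) (hb : 1 < b) {ε : ℝ} (hε : 0 < ε) : ∃ x₀ : ℝ, ∀ x : ℝ,
    x₀ ≤ x → ∀ T h : ℕ, T ≤ tow h →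
    {p : ℕ × ℕ | p.1 ≤ T ∧ (1 / x < |a ^ p.1 - b ^ p.2| ∧ |a ^ p.1 - b ^ p.2| ≤ x) ∧
      x < a ^ p.1 ∧ x < b ^ p.2}.Finite ∧
    (({p : ℕ × ℕ | p.1 ≤ T ∧ (1 / x < |a ^ p.1 - b ^ p.2| ∧ |a ^ p.1 - b ^ p.2| ≤ x) ∧
      x < a ^ p.1 ∧ x < b ^ p.2}.ncard : ℕ) : ℝ) ≤ ε * log x + h := by
  obtain ⟨x₁, C₁, H1⟩ := lines_small ha hb (ε := ε / 3) (by positivity)
  obtain ⟨K, hK, H2⟩ := middle_small ha hb (ε := ε / 3) (by positivity)
  obtain ⟨C₂, H3⟩ := short_small ha hb hK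
  obtain ⟨x₂, hx₂⟩ : ∃ x₂ : ℝ, ∀ x, x₂ ≤ x → C₁ + 1 + C₂ ≤ ε / 3 * log x := by
    have h1 := (Real.tendsto_log_atTop.const_mul_atTop (by positivity : 0 < ε / 3)).eventually
      (eventually_ge_atTop (C₁ + 1 + C₂))
    exact eventually_atTop.1 h1
  refine ⟨max (max x₁ x₂) 2, fun x hx T h hT => ?_⟩
  have hxa : x₁ ≤ x := ((le_max_left _ _).trans (le_max_left _ _)).trans hx
  have hxb : x₂ ≤ x := ((le_max_right _ _).trans (le_max_left _ _)).trans hx
  have hxc : 2 ≤ x := (le_max_right _ _).trans hx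
  obtain ⟨f1, g1⟩ := H1 x hxa T h hT
  obtain ⟨f2, g2⟩ := H2 x hxc
  obtain ⟨f3, g3⟩ := H3 x hxc
  have g4 := hx₂ x hxb
  set S1 := {p : ℕ × ℕ | (p.1 ≤ T ∧ 1 / x < |a ^ p.1 - b ^ p.2| ∧ |a ^ p.1 - b ^ p.2| ≤ x) ∧
      x ^ 2 < a ^ p.1} with hS1
  set S2 := {p : ℕ × ℕ | (1 / x < |a ^ p.1 - b ^ p.2| ∧ |a ^ p.1 - b ^ p.2| ≤ x) ∧
      K * x < a ^ p.1 ∧ a ^ p.1 ≤ x ^ 2} with hS2
  set S3 := {p : ℕ × ℕ | |a ^ p.1 - b ^ p.2| ≤ x ∧ x < b ^ p.2 ∧ x < a ^ p.1 ∧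
      a ^ p.1 ≤ K * x} with hS3
  have hsub : {p : ℕ × ℕ | p.1 ≤ T ∧ (1 / x < |a ^ p.1 - b ^ p.2| ∧ |a ^ p.1 - b ^ p.2| ≤ x) ∧
      x < a ^ p.1 ∧ x < b ^ p.2} ⊆ S1 ∪ S2 ∪ S3 := by
    rintro p ⟨h1, h2, h3, h4⟩
    rcases lt_or_ge (x ^ 2) (a ^ p.1) with h5 | h5
    · exact Or.inl (Or.inl ⟨⟨h1, h2⟩, h5⟩)
    · rcases lt_or_ge (K * x) (a ^ p.1) with h6 | h6
      · exact Or.inl (Or.inr ⟨h2, h6, h5⟩)
      · exact Or.inr ⟨h2.2, h4, h3, h6⟩
  have hfin := (f1.union f2).union f3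
  refine ⟨hfin.subset hsub, ?_⟩
  have h1 := Set.ncard_le_ncard hsub hfin
  have h2 := (Set.ncard_union_le (S1 ∪ S2) S3)
  have h3 := (Set.ncard_union_le S1 S2)
  have h4 : ({p : ℕ × ℕ | p.1 ≤ T ∧ (1 / x < |a ^ p.1 - b ^ p.2| ∧ |a ^ p.1 - b ^ p.2| ≤ x) ∧
      x < a ^ p.1 ∧ x < b ^ p.2}.ncard : ℝ) ≤ S1.ncard + S2.ncard + S3.ncard := by
    exact_mod_cast h1.trans (h2.trans (by omega))
  linarith

end Pool.Agent.NH81.NC
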